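import Pool.Agent.H38.AT.Targets

/-! RGN: the reduced tuples of large height. -/

set_option autoImplicit false

open Pool.Agent.H38.AE.Statement (Admissible radical)
open Pool.Agent.H38.PS (pd)
open Pool.Agent.H38.RB (tp)
open Pool.Agent.H38.AE (RR rad NT NJ)
open Pool.Agent.H38.AB (Nf Lo)
open Pool.Agent.H23.AF (w5)
open Pool.Agent.H38.AT

namespace Pool.Agent.H36.AT

theorem prn_eq {n : ℕ} (x : Fin n → ℤ) : prn x = ∏ i, (x i).natAbs := by
  unfold prn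
  exact map_prod Int.natAbsHom x Finset.univ

theorem prn_ne {n : ℕ} {x : Fin n → ℤ} (hx : Admissible x) : prn x ≠ 0 := by
  rw [prn_eq]
  exact Finset.prod_ne_zero_iff.2 (fun i _ => Int.natAbs_ne_zero.2 (hx.1 i))

theorem natAbs_le_htn {n : ℕ} (x : Fin n → ℤ) (i : Fin n) : (x i).natAbs ≤ htn x :=
  Finset.le_sup (f := fun i => (x i).natAbs) (Finset.mem_univ i)

/-- the exponents are small -/
theorem pow_fac_le {n : ℕ} {x : Fin n → ℤ} (hx : Admissible x) (hn : 0 < n) (p : ℕ) :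
    2 ^ (prn x).factorization p ≤ htn x := by
  have hne : ∀ i, (x i).natAbs ≠ 0 := fun i => Int.natAbs_ne_zero.2 (hx.1 i)
  have h1 : 1 ≤ htn x :=
    (Nat.one_le_iff_ne_zero.2 (hne ⟨0, hn⟩)).trans (natAbs_le_htn x ⟨0, hn⟩)
  by_cases hp : p.Prime
  · have hfac : (prn x).factorization p = ∑ i, (x i).natAbs.factorization p := by
      rw [prn_eq, Nat.factorization_prod (fun i _ => hne i), Finset.sum_apply']
    by_cases hex : ∃ i, p ∣ (x i).natAbs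
    · obtain ⟨i, hi⟩ := hex
      have hs : ∑ j, (x j).natAbs.factorization p = (x i).natAbs.factorization p := by
        refine Finset.sum_eq_single i ?_ ?_
        · intro j _ hji
          refine Nat.factorization_eq_zero_of_not_dvd ?_
          intro hj
          have hc := Int.isCoprime_iff_gcd_eq_one.1 (hx.2.1 i j (Ne.symm hji))
          rw [Int.gcd_def] at hc
          have h3 := Nat.dvd_gcd hi hj
          rw [hc] at h3
          exact hp.one_lt.ne' (Nat.dvd_one.1 h3)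
        · intro h
          exact absurd (Finset.mem_univ i) h
      rw [hfac, hs]
      exact (Nat.pow_le_pow_left hp.two_le _).trans
        ((Nat.ordProj_le p (hne i)).trans (natAbs_le_htn x i))
    · have hs : ∑ j, (x j).natAbs.factorization p = 0 := by
        refine Finset.sum_eq_zero ?_
        intro j _
        exact Nat.factorization_eq_zero_of_not_dvd (fun hj => hex ⟨j, hj⟩)
      rw [hfac, hs, pow_zero]
      exact h1
  · rw [Nat.factorization_eq_zero_of_not_prime _ hp, pow_zero]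
    exact h1

theorem log16 : (1 : ℝ) < Real.log 16 := by
  have h : Real.log 16 = 4 * Real.log 2 := by
    rw [show (16 : ℝ) = 2 ^ 4 by norm_num, Real.log_pow]
    norm_num
  rw [h]
  linarith [Real.log_two_gt_d9]

theorem rdn_mono {n : ℕ} {X ρ ρ' : ℝ} (hX : 16 ≤ X) (hρ : ρ ≤ ρ') {x : Fin n → ℤ}
    (hx : x ∈ RdN n X ρ) : x ∈ RdN n X ρ' := by
  obtain ⟨h1, h2, h3, h5⟩ := hx
  have hX1 : (1 : ℝ) ≤ X := by linarith
  refine ⟨h1, h2, fun i => (Real.rpow_le_rpow_of_exponent_le hX1 (by linarith)).trans (h3 i),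
    h5.trans ?_⟩
  exact mul_le_mul_of_nonneg_right hρ (Real.log_nonneg hX1)

/-- the number of the primes -/
theorem card_le {n : ℕ} {X : ℝ} {x : Fin n → ℤ} (_hX : 16 ≤ X)
    (h : (pd (prn x).primeFactors : ℝ) ≤ X) :
    ((prn x).primeFactors.card : ℝ) ≤ 2 * Real.log X := by
  have h1 : 2 ^ (prn x).primeFactors.card ≤ pd (prn x).primeFactors := by
    unfold pd
    exact Finset.pow_card_le_prod _ _ _ (fun p hp => (Nat.prime_of_mem_primeFactors hp).two_le)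
  have h2 : ((2 : ℝ) ^ (prn x).primeFactors.card) ≤ X :=
    le_trans (by exact_mod_cast h1) h
  have h3 : Real.log ((2 : ℝ) ^ (prn x).primeFactors.card) ≤ Real.log X :=
    Real.log_le_log (by positivity) h2
  rw [Real.log_pow] at h3
  have h4 : (1 : ℝ) / 2 ≤ Real.log 2 := by linarith [Real.log_two_gt_d9]
  have h5 : ((prn x).primeFactors.card : ℝ) * (1 / 2) ≤
      ((prn x).primeFactors.card : ℝ) * Real.log 2 :=
    mul_le_mul_of_nonneg_left h4 (Nat.cast_nonneg _)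
  linarith

/-- the bound for the exponents -/
noncomputable def Vb (X ρ : ℝ) (Ω : ℕ) : ℕ := ⌊10 * Real.log X * X ^ (ρ / Ω)⌋₊

/-- the tuples have few primes and small exponents -/
theorem mem_fwn {n : ℕ} {X ρ A₀ : ℝ} (hn : 0 < n) (hX : 16 ≤ X) (hA : 1 ≤ A₀)
    {x : Fin n → ℤ} (hx : x ∈ RdN n X ρ) (hc : Cd ρ X x)
    (hh : A₀ * Real.log X ≤ Real.log (htn x)) :
    1 ≤ (prn x).primeFactors.card ∧
      x ∈ FwN n X (prn x).primeFactors.card (Vb X ρ (prn x).primeFactors.card) := by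
  have hX0 : 0 < X := by linarith
  have hl16 : Real.log 16 ≤ Real.log X := Real.log_le_log (by norm_num) hX
  have hlX : 1 < Real.log X := by linarith [log16]
  have hlh : 1 < Real.log (htn x) := by
    have h1 : Real.log X ≤ A₀ * Real.log X := by nlinarith
    linarith
  have hadm := hx.1
  have hcard : 1 ≤ (prn x).primeFactors.card := by
    rw [Nat.one_le_iff_ne_zero]
    intro h0
    have h1 : prn x = 1 := by
      have h2 := Finset.card_eq_zero.1 h0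
      rcases Nat.primeFactors_eq_empty.1 h2 with h3 | h3
      · exact absurd h3 (prn_ne hadm)
      · exact h3
    have h4 : htn x ≤ 1 := by
      refine Finset.sup_le ?_
      intro i _
      have h5 : (x i).natAbs ∣ prn x := by
        rw [prn_eq]
        exact Finset.dvd_prod_of_mem _ (Finset.mem_univ i)
      rw [h1] at h5
      exact (Nat.dvd_one.1 h5).le
    have h6 : Real.log (htn x) ≤ 0 := by
      refine Real.log_nonpos (Nat.cast_nonneg _) ?_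
      exact_mod_cast h4
    linarith
  refine ⟨hcard, hadm, hx.2.1, le_rfl, fun p => Nat.le_floor ?_⟩
  have hΩ : (1 : ℝ) ≤ ((prn x).primeFactors.card : ℝ) := by exact_mod_cast hcard
  have hΩ0 : (0 : ℝ) < ((prn x).primeFactors.card : ℝ) := by linarith
  have h1 : Real.log (2 + Real.log (htn x) / Real.log X) ≤
      ρ * Real.log X / ((prn x).primeFactors.card : ℝ) := by
    rw [le_div_iff₀ hΩ0, mul_comm]
    exact hc
  have hq : 0 ≤ Real.log (htn x) / Real.log X := by positivity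
  have h2 : 2 + Real.log (htn x) / Real.log X ≤ X ^ (ρ / ((prn x).primeFactors.card : ℝ)) := by
    have h3 := Real.exp_le_exp.2 h1
    rw [Real.exp_log (by linarith)] at h3
    rw [Real.rpow_def_of_pos hX0]
    refine h3.trans (le_of_eq ?_)
    congr 1
    ring
  have h3 : Real.log (htn x) ≤ Real.log X * X ^ (ρ / ((prn x).primeFactors.card : ℝ)) := by
    have h4 : Real.log (htn x) / Real.log X ≤ X ^ (ρ / ((prn x).primeFactors.card : ℝ)) := by
      linarith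
    rw [div_le_iff₀ (by linarith)] at h4
    linarith
  have h5 := pow_fac_le hadm hn p
  have h6 : ((2 : ℝ) ^ (prn x).factorization p) ≤ (htn x : ℝ) := by exact_mod_cast h5
  have h7 : Real.log ((2 : ℝ) ^ (prn x).factorization p) ≤ Real.log (htn x) :=
    Real.log_le_log (by positivity) h6
  rw [Real.log_pow] at h7
  have h8 : (1 : ℝ) / 2 ≤ Real.log 2 := by linarith [Real.log_two_gt_d9]
  have h9 : ((prn x).factorization p : ℝ) * (1 / 2) ≤
      ((prn x).factorization p : ℝ) * Real.log 2 :=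
    mul_le_mul_of_nonneg_left h8 (Nat.cast_nonneg _)
  have h10 : 0 ≤ Real.log X * X ^ (ρ / ((prn x).primeFactors.card : ℝ)) := by positivity
  linarith

theorem ex_log {a : ℝ} (ha : 0 < a) : ∃ X₀ : ℝ, 16 ≤ X₀ ∧ ∀ X : ℝ, X₀ ≤ X →
    10 * Real.log X ≤ X ^ a := by
  have h := (isLittleO_log_rpow_atTop ha).bound (show (0 : ℝ) < 1 / 10 by norm_num)
  obtain ⟨X₁, hX₁⟩ := Filter.eventually_atTop.1 h
  refine ⟨max 16 X₁, le_max_left _ _, fun X hX => ?_⟩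
  have h16 : 16 ≤ X := (le_max_left _ _).trans hX
  have h1 := hX₁ X ((le_max_right _ _).trans hX)
  rw [Real.norm_of_nonneg (Real.log_nonneg (by linarith)),
    Real.norm_of_nonneg (Real.rpow_nonneg (by linarith) _)] at h1
  linarith

theorem pf_RGN (hCLN : T_CLN) (hCJN : T_CJN) (hSLN : T_SLN) (hNUN : T_NUN) : T_RGN := by
  intro n hn
  obtain ⟨A₀, ρ₁, c, hA₀, hρ₁, hc, hS⟩ := hSLN n hn
  obtain ⟨K₁, C₁, hC₁, hE⟩ := hCLN n
  obtain ⟨K₂, C₂, hC₂, hJ⟩ := hCJN n (c / 800) (by positivity)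
  obtain ⟨ρ₂, D₁, hρ₂, hD₁, hN₁⟩ := hNUN K₁ (c / 8) (by positivity)
  obtain ⟨ρ₃, D₂, hρ₃, hD₂, hN₂⟩ := hNUN K₂ (c / 8) (by positivity)
  obtain ⟨X₂, hX₂, hL₂⟩ := ex_log (a := c / 1600) (by positivity)
  obtain ⟨X₃, hX₃, hL₃⟩ := ex_log (a := c / 8) (by positivity)
  obtain ⟨ρ, hρdef⟩ : ∃ ρ : ℝ, ρ = min (min ρ₁ ρ₂) (min ρ₃ (c / 1600)) := ⟨_, rfl⟩
  have hρ : 0 < ρ := by
    rw [hρdef]
    exact lt_min (lt_min hρ₁ hρ₂) (lt_min hρ₃ (by positivity))
  have hρ1 : ρ ≤ ρ₁ := by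
    rw [hρdef]
    exact (min_le_left _ _).trans (min_le_left _ _)
  have hρ2 : ρ ≤ ρ₂ := by
    rw [hρdef]
    exact (min_le_left _ _).trans (min_le_right _ _)
  have hρ3 : ρ ≤ ρ₃ := by
    rw [hρdef]
    exact (min_le_right _ _).trans (min_le_left _ _)
  have hρ4 : ρ ≤ c / 1600 := by
    rw [hρdef]
    exact (min_le_right _ _).trans (min_le_right _ _)
  have hD₁0 : 0 < D₁ := by linarith
  have hD₂0 : 0 < D₂ := by linarith
  refine ⟨A₀, ρ, c / 2, C₁ * D₁ + C₂ * D₂, max X₂ X₃, hA₀, hρ, by positivity, by positivity,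
    hX₂.trans (le_max_left _ _), ?_⟩
  intro X hX
  have hXX₂ : X₂ ≤ X := (le_max_left _ _).trans hX
  have hXX₃ : X₃ ≤ X := (le_max_right _ _).trans hX
  have h16 : 16 ≤ X := hX₂.trans hXX₂
  have hX0 : 0 < X := by linarith
  have hX1 : 1 ≤ X := by linarith
  have hX2 : 2 ≤ X := by linarith
  have hl16 : Real.log 16 ≤ Real.log X := Real.log_le_log (by norm_num) h16
  have hlX : 1 < Real.log X := by linarith [log16]
  obtain ⟨Z, hZ⟩ : ∃ Z : ℝ, Z = X ^ (1 - 1 / (n : ℝ) - c) := ⟨_, rfl⟩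
  have hZ0 : 0 ≤ Z := by
    rw [hZ]
    positivity
  obtain ⟨S, hSdef⟩ : ∃ S : Set (Fin n → ℤ), S = {x | x ∈ RdN n X ρ ∧ Cd ρ X x ∧
    A₀ * Real.log X ≤ Real.log (htn x)} := ⟨_, rfl⟩
  rw [← hSdef]
  obtain ⟨T, hT⟩ : ∃ T : Finset ℕ, T = (Finset.Icc 1 ⌊2 * Real.log X⌋₊).filter
    (fun Ω : ℕ => (Ω : ℝ) * Real.log (Real.log X) ≤ ρ * Real.log X) := ⟨_, rfl⟩
  obtain ⟨E, hEdef⟩ : ∃ E : ℕ → Set (Fin n → ℤ), E = fun Ω =>
    {x | x ∈ FwN n X Ω (Vb X ρ Ω) ∧ PEN X Z x} := ⟨_, rfl⟩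
  obtain ⟨J, hJdef⟩ : ∃ J : ℕ → Set (Fin n → ℤ), J = fun Ω =>
    {x | x ∈ FwN n X Ω (Vb X ρ Ω) ∧ PJN Z x} := ⟨_, rfl⟩
  have hsub : S ⊆ ⋃ Ω ∈ T, (E Ω ∪ J Ω) := by
    intro x hx
    rw [hSdef] at hx
    obtain ⟨ha, hcd, hlo⟩ := hx
    obtain ⟨h1, h2⟩ := mem_fwn (by omega) h16 hA₀ ha hcd hlo
    refine Set.mem_biUnion (x := (prn x).primeFactors.card) ?_ ?_
    · rw [hT]
      refine Finset.mem_coe.2 (Finset.mem_filter.2 ⟨Finset.mem_Icc.2 ⟨h1, Nat.le_floor ?_⟩,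
        ha.2.2.2⟩)
      exact card_le h16 ha.2.1
    · rcases hS X x hX2 (rdn_mono h16 hρ1 ha) hlo with h | h
      · refine Or.inl ?_
        rw [hEdef]
        exact ⟨h2, by rw [hZ]; exact h⟩
      · refine Or.inr ?_
        rw [hJdef]
        exact ⟨h2, by rw [hZ]; exact h⟩
  obtain ⟨Y, hY⟩ : ∃ Y : ℝ, Y = Z * X ^ (c / 4) := ⟨_, rfl⟩
  have hY0 : 0 ≤ Y := by
    rw [hY]
    positivity
  -- the bounds for one number of primes
  have hb : ∀ Ω ∈ T, (E Ω).Finite ∧ (J Ω).Finite ∧ ((E Ω ∪ J Ω).ncard : ℝ) ≤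
      (C₁ * D₁ + C₂ * D₂) * Y := by
    intro Ω hΩ
    rw [hT] at hΩ
    obtain ⟨hΩ1, hΩ2⟩ := Finset.mem_filter.1 hΩ
    have h1 : 1 ≤ Ω := (Finset.mem_Icc.1 hΩ1).1
    have h1' : (1 : ℝ) ≤ (Ω : ℝ) := by exact_mod_cast h1
    have hΩ0 : (0 : ℝ) < (Ω : ℝ) := by linarith
    have hV : (Vb X ρ Ω : ℝ) ≤ 10 * Real.log X * X ^ (ρ / Ω) := by
      unfold Vb
      exact Nat.floor_le (by positivity)
    have hV' : ∀ ρ' : ℝ, ρ ≤ ρ' → (Vb X ρ Ω : ℝ) ≤ 10 * Real.log X * X ^ (ρ' / Ω) := by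
      intro ρ' hρ'
      refine hV.trans ?_
      refine mul_le_mul_of_nonneg_left ?_ (by positivity)
      exact Real.rpow_le_rpow_of_exponent_le hX1 (by gcongr)
    have hVX : (Vb X ρ Ω : ℝ) ≤ X ^ (c / 800) := by
      refine hV.trans ?_
      calc 10 * Real.log X * X ^ (ρ / Ω) ≤ X ^ (c / 1600) * X ^ (c / 1600) := by
            refine mul_le_mul (hL₂ X hXX₂) ?_ (by positivity) (by positivity)
            refine Real.rpow_le_rpow_of_exponent_le hX1 ?_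
            exact (div_le_self hρ.le h1').trans hρ4
        _ = X ^ (c / 800) := by
            rw [← Real.rpow_add hX0]
            congr 1
            ring
    have hLo₁ : Lo K₁ X Ω (Vb X ρ Ω) ≤ D₁ * X ^ (c / 8) :=
      hN₁ X Ω _ h16 h1 (hΩ2.trans (mul_le_mul_of_nonneg_right hρ2 (by linarith))) (hV' ρ₂ hρ2)
    have hLo₂ : Lo K₂ X Ω (Vb X ρ Ω) ≤ D₂ * X ^ (c / 8) :=
      hN₂ X Ω _ h16 h1 (hΩ2.trans (mul_le_mul_of_nonneg_right hρ3 (by linarith))) (hV' ρ₃ hρ3)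
    obtain ⟨fE, cE⟩ := hE X Z Ω (Vb X ρ Ω) hX2 hZ0
    obtain ⟨fJ, cJ⟩ := hJ X Z Ω (Vb X ρ Ω) hX2 hZ0 hVX
    have eE : E Ω = {x | x ∈ FwN n X Ω (Vb X ρ Ω) ∧ PEN X Z x} := by rw [hEdef]
    have eJ : J Ω = {x | x ∈ FwN n X Ω (Vb X ρ Ω) ∧ PJN Z x} := by rw [hJdef]
    rw [← eE] at fE cE
    rw [← eJ] at fJ cJ
    refine ⟨fE, fJ, ?_⟩
    have e1 : Z * X ^ (c / 8) ≤ Y := by
      rw [hY]
      refine mul_le_mul_of_nonneg_left ?_ hZ0
      exact Real.rpow_le_rpow_of_exponent_le hX1 (by linarith)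
    have e2 : Z * X ^ (100 * (c / 800)) * X ^ (c / 8) = Y := by
      rw [hY, mul_assoc, ← Real.rpow_add hX0]
      congr 2
      ring
    have b1 : ((E Ω).ncard : ℝ) ≤ C₁ * D₁ * Y := by
      calc ((E Ω).ncard : ℝ) ≤ C₁ * Z * Lo K₁ X Ω (Vb X ρ Ω) := cE
        _ ≤ C₁ * Z * (D₁ * X ^ (c / 8)) := by gcongr
        _ = C₁ * D₁ * (Z * X ^ (c / 8)) := by ring
        _ ≤ C₁ * D₁ * Y := by gcongr
    have b2 : ((J Ω).ncard : ℝ) ≤ C₂ * D₂ * Y := by
      calc ((J Ω).ncard : ℝ) ≤ C₂ * Z * X ^ (100 * (c / 800)) * Lo K₂ X Ω (Vb X ρ Ω) := cJ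
        _ ≤ C₂ * Z * X ^ (100 * (c / 800)) * (D₂ * X ^ (c / 8)) := by gcongr
        _ = C₂ * D₂ * (Z * X ^ (100 * (c / 800)) * X ^ (c / 8)) := by ring
        _ = C₂ * D₂ * Y := by rw [e2]
    have h3 : ((E Ω ∪ J Ω).ncard : ℝ) ≤ ((E Ω).ncard : ℝ) + ((J Ω).ncard : ℝ) := by
      exact_mod_cast Set.ncard_union_le (E Ω) (J Ω)
    calc ((E Ω ∪ J Ω).ncard : ℝ) ≤ ((E Ω).ncard : ℝ) + ((J Ω).ncard : ℝ) := h3
      _ ≤ C₁ * D₁ * Y + C₂ * D₂ * Y := add_le_add b1 b2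
      _ = (C₁ * D₁ + C₂ * D₂) * Y := by ring
  have hfin : (⋃ Ω ∈ T, (E Ω ∪ J Ω)).Finite := by
    refine Set.Finite.biUnion (Finset.finite_toSet T) ?_
    intro Ω hΩ
    obtain ⟨h1, h2, -⟩ := hb Ω hΩ
    exact h1.union h2
  refine ⟨hfin.subset hsub, ?_⟩
  have hTc : (T.card : ℝ) ≤ X ^ (c / 8) := by
    have h1 : T.card ≤ ⌊2 * Real.log X⌋₊ := by
      rw [hT]
      refine (Finset.card_filter_le _ _).trans ?_
      rw [Nat.card_Icc]
      omega
    have h2 : (T.card : ℝ) ≤ 2 * Real.log X :=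
      le_trans (by exact_mod_cast h1) (Nat.floor_le (by positivity))
    have h3 := hL₃ X hXX₃
    linarith
  have h1 : (S.ncard : ℝ) ≤ ∑ Ω ∈ T, ((E Ω ∪ J Ω).ncard : ℝ) := by
    have h2 : S.ncard ≤ ∑ Ω ∈ T, (E Ω ∪ J Ω).ncard :=
      (Set.ncard_le_ncard hsub hfin).trans (Finset.set_ncard_biUnion_le T _)
    exact_mod_cast h2
  have h2 : ∑ Ω ∈ T, ((E Ω ∪ J Ω).ncard : ℝ) ≤ T.card • ((C₁ * D₁ + C₂ * D₂) * Y) :=
    Finset.sum_le_card_nsmul T _ _ (fun Ω hΩ => (hb Ω hΩ).2.2)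
  rw [nsmul_eq_mul] at h2
  have e3 : X ^ (c / 8) * Y ≤ X ^ (1 - 1 / (n : ℝ) - c / 2) := by
    rw [hY, hZ, ← Real.rpow_add hX0, ← Real.rpow_add hX0]
    exact Real.rpow_le_rpow_of_exponent_le hX1 (by linarith)
  calc (S.ncard : ℝ) ≤ (T.card : ℝ) * ((C₁ * D₁ + C₂ * D₂) * Y) := h1.trans h2
    _ ≤ X ^ (c / 8) * ((C₁ * D₁ + C₂ * D₂) * Y) := by gcongr
    _ = (C₁ * D₁ + C₂ * D₂) * (X ^ (c / 8) * Y) := by ring
    _ ≤ (C₁ * D₁ + C₂ * D₂) * X ^ (1 - 1 / (n : ℝ) - c / 2) := by gcongr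

end Pool.Agent.H36.AT
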